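import Pool.Agent.helper52.WP.SpecT

/-!
# Project wp: (MP_af9036_an), module `STW`: the start of the propagation
-/

set_option autoImplicit false

open Complex Metric Set Filter Topology MeasureTheory
open V3S (UF)
open WP

noncomputable section

namespace WPT

theorem STW (hCTS : CTS_stmt) (hCHT : WPL.CHT_stmt) (hREG : WPL.REG_stmt) (hBCV : BCV_stmt)
    (hTAU : TAU_stmt) (hINVL : XPT.INVL_stmt) (hCB1 : WPC.CB1_stmt) (hCAF : XPL.CAF_stmt) :
    STW_stmt := by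
  intro n C D hC hseq hLB
  obtain ⟨hopen, -, hiso⟩ := hREG n C D hC hseq hLB
  obtain ⟨Am, -, hgood⟩ := hseq.good
  have hC0 : 0 < C := by linarith
  -- the base point
  obtain ⟨ε, hε, hεR⟩ := hiso 0
  obtain ⟨t, ht0, htε, htC⟩ : ∃ t > (0 : ℝ), t < ε ∧ t < 1 / (8 * C) :=
    ⟨min ε (1 / (8 * C)) / 2, by positivity, by
      have h1 := min_le_left ε (1 / (8 * C))
      linarith, by
      have h1 := min_le_right ε (1 / (8 * C))
      have h2 : 0 < 1 / (8 * C) := by positivity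
      linarith⟩
  have hxn : ‖((t : ℝ) : ℂ)‖ = t := by
    rw [Complex.norm_real, Real.norm_of_nonneg ht0.le]
  obtain ⟨x₀, hx₀R, hx₀c⟩ : ∃ x₀ ∈ Reg D, ‖x₀‖ < 1 / (8 * C) := by
    refine ⟨(t : ℂ), hεR _ ?_ ?_, ?_⟩
    · rw [mem_ball_zero_iff, hxn]
      exact htε
    · exact_mod_cast ht0.ne'
    · rw [hxn]
      exact htC
  obtain ⟨ρ₀, hρ₀, hρ₀R⟩ := Metric.isOpen_iff.1 hopen x₀ hx₀R
  obtain ⟨ρ, hρ, hρ1, hρ2⟩ : ∃ ρ > (0 : ℝ), 8 * ρ < ρ₀ ∧ ρ ≤ 1 / (64 * C) :=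
    ⟨min (ρ₀ / 16) (1 / (64 * C)), by positivity, by
      have := min_le_left (ρ₀ / 16) (1 / (64 * C))
      linarith, min_le_right _ _⟩
  have hC1 : 1 / (64 * C) ≤ 1 / 64 := by
    apply one_div_le_one_div_of_le <;> linarith
  have hC8 : 1 / (8 * C) = 8 * (1 / (64 * C)) := by
    field_simp
    norm_num
  have hC2 : 1 / (2 * C) = 32 * (1 / (64 * C)) := by
    field_simp
    norm_num
  have hKR : closedBall x₀ (8 * ρ) ⊆ Reg D := fun y hy =>
    hρ₀R (by rw [mem_closedBall] at hy; rw [mem_ball]; linarith)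
  obtain ⟨κ, hκ, M, hBd⟩ := hBCV n C D hC hseq hLB (closedBall x₀ (8 * ρ))
    (isCompact_closedBall _ _) hKR
  have hM : 0 ≤ M := by
    obtain ⟨m, hm⟩ := hBd.exists
    exact le_trans (norm_nonneg _) (hm x₀ (mem_closedBall_self (by linarith))).2.2
  obtain ⟨C₃, hC₃, htau⟩ := hTAU κ M ρ hκ hM hρ
  obtain ⟨h, hh, η, hη, C₁, hC₁, hh1, hch⟩ := hCHT n C D hC hseq hLB x₀ hx₀R
  have hC₁0 : 0 < C₁ := by linarith
  obtain ⟨r, hr, hrh, hrρ⟩ : ∃ r > (0 : ℝ), r ≤ h ∧ 4 * r * C₁ ≤ ρ :=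
    ⟨min h (ρ / (4 * C₁)), by positivity, min_le_left _ _, by
      have h1 := min_le_right h (ρ / (4 * C₁))
      rw [le_div_iff₀ (by positivity)] at h1
      linarith⟩
  obtain ⟨C', hC', hcts⟩ := hCTS C₁ C₃ r hC₁0 hC₃ hr
  refine ⟨x₀, hx₀R, r, hr, C', hC', ?_⟩
  have homT : Tendsto (fun m => (D m).om) UF (𝓝 0) := hseq.om.mono_left V3S.UF_le
  have hδ : 0 < min (ρ / 2) (r / (10 * C₁)) := by positivity
  filter_upwards [hch, hBd, homT.eventually (gt_mem_nhds hδ)] with m hchm hBm hom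
  have hG := hgood m
  obtain ⟨hsg0, -, hxz, hzx, -, -, hFd, -⟩ := hCB1 (D m) hG.rho
  have hom0 : 0 < (D m).om := hG.om0
  have hom1 : (D m).om < ρ / 2 := lt_of_lt_of_le hom (min_le_left _ _)
  have hom2 : (D m).om < r / (10 * C₁) := lt_of_lt_of_le hom (min_le_right _ _)
  -- the inverse branch
  have hb1 : ∀ y ∈ ball x₀ (4 * ρ), y ∈ ball (0 : ℂ) 1 := by
    intro y hy
    rw [mem_ball, dist_eq_norm] at hy
    rw [mem_ball_zero_iff]
    calc ‖y‖ = ‖(y - x₀) + x₀‖ := by rw [sub_add_cancel]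
      _ ≤ ‖y - x₀‖ + ‖x₀‖ := norm_add_le _ _
      _ < 1 := by linarith
  obtain ⟨Ψ, hΨd, hΨ⟩ := hINVL ((D m).F (D m).k) x₀ (2 * ρ) (D m).om (by linarith) hom0.le
    (by linarith) (hFd _).differentiableOn (fun y hy => hG.near y (hb1 y (by
      have h1 : (2 * (2 * ρ)) = 4 * ρ := by ring
      rwa [h1] at hy)))
  have hΨ2 : ∀ x ∈ ball x₀ (2 * ρ), ‖Ψ x - x‖ ≤ (D m).om := fun x hx => (hΨ x hx).2.2
  have hsub : ball x₀ ρ ⊆ ball x₀ (2 * ρ) := ball_subset_ball (by linarith)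
  have hdΨ : 1 / 2 ≤ ‖deriv Ψ x₀‖ := by
    have hx0m : x₀ ∈ ball x₀ (2 * ρ) := mem_ball_self (by linarith)
    have hxd : DifferentiableAt ℂ Ψ x₀ := hΨd.differentiableAt (isOpen_ball.mem_nhds hx0m)
    have h1 : deriv (fun y => Ψ y - y) x₀ = deriv Ψ x₀ - 1 :=
      (hxd.hasDerivAt.sub (hasDerivAt_id x₀)).deriv
    have hcb : closedBall x₀ ρ ⊆ ball x₀ (2 * ρ) := closedBall_subset_ball (by linarith)
    have h2 : ‖deriv (fun y => Ψ y - y) x₀‖ ≤ (D m).om / ρ := by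
      refine Complex.norm_deriv_le_of_forall_mem_sphere_norm_le hρ ?_ ?_
      · have hd : DifferentiableOn ℂ (fun y => Ψ y - y) (closedBall x₀ ρ) :=
          (hΨd.mono hcb).sub differentiableOn_id
        have hcl : closure (ball x₀ ρ) ⊆ closedBall x₀ ρ := closure_ball_subset_closedBall
        exact (hd.mono hcl).diffContOnCl
      · intro z hz
        exact hΨ2 z (hcb (sphere_subset_closedBall hz))
    have h3 : (D m).om / ρ ≤ 1 / 2 := by
      rw [div_le_iff₀ hρ]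
      linarith
    rw [h1] at h2
    have h4 : ‖(1 : ℂ)‖ ≤ ‖deriv Ψ x₀‖ + ‖deriv Ψ x₀ - 1‖ := by
      have h5 := norm_sub_le (deriv Ψ x₀) (deriv Ψ x₀ - 1)
      rwa [sub_sub_cancel] at h5
    rw [norm_one] at h4
    linarith
  -- the chart
  obtain ⟨χ, hnat, hval, hfar, haff, hsg1, hsg2⟩ := hchm x₀ (mem_ball_self hη)
  obtain ⟨hχ0, -, hχd, -⟩ := hCAF _ _ χ (16 * h) (by linarith) hnat haff
  have hχ1 : 0 < ‖deriv χ 0‖ := norm_pos_iff.2 hχ0
  have hs2 : ball (0 : ℂ) (2 * r) ⊆ ball (0 : ℂ) (16 * h) := ball_subset_ball (by linarith)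
  have hχw : ∀ w ∈ ball (0 : ℂ) (2 * r), ‖χ w - χ 0‖ ≤ 11 / 10 * ‖deriv χ 0‖ * (2 * r) := by
    intro w hw
    have h1 := (hχd w (hs2 hw) 0 (mem_ball_self (by linarith))).2
    rw [sub_zero] at h1
    rw [mem_ball_zero_iff] at hw
    refine h1.trans ?_
    exact mul_le_mul_of_nonneg_left hw.le (by positivity)
  have hSt : St (D m) C x₀ ρ r χ Ψ := by
    refine ⟨hr, hΨd.mono hsub, fun x hx => (hΨ x (hsub hx)).2.1, ?_, ?_, ?_, hval,
      fun w hw => haff w (hs2 hw), ?_⟩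
    · intro x hx
      have h0 : ‖x‖ < 1 / (8 * C) + ρ := by
        rw [mem_ball, dist_eq_norm] at hx
        calc ‖x‖ = ‖(x - x₀) + x₀‖ := by rw [sub_add_cancel]
          _ ≤ ‖x - x₀‖ + ‖x₀‖ := norm_add_le _ _
          _ < 1 / (8 * C) + ρ := by linarith
      have h1 : ‖Ψ x‖ < 1 / (8 * C) + ρ + ρ := by
        calc ‖Ψ x‖ = ‖(Ψ x - x) + x‖ := by rw [sub_add_cancel]
          _ ≤ ‖Ψ x - x‖ + ‖x‖ := norm_add_le _ _
          _ < 1 / (8 * C) + ρ + ρ := by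
            have := hΨ2 x (hsub hx)
            linarith
      have h64 : 0 < 1 / (64 * C) := by positivity
      refine ⟨?_, ?_⟩
      · rw [mem_ball_zero_iff]
        linarith
      · rw [mem_ball_zero_iff]
        linarith
    · exact ⟨hnat.diff.mono hs2, fun w hw => hnat.av w (hs2 hw), fun w hw => hnat.eq w (hs2 hw)⟩
    · intro w hw
      refine hfar _ ?_
      rw [mem_ball, dist_eq_norm]
      refine lt_of_le_of_lt (hχw w hw) ?_
      have h1 : 11 / 10 * ‖deriv χ 0‖ * (2 * r) ≤ 11 / 10 * ‖deriv χ 0‖ * (2 * h) :=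
        mul_le_mul_of_nonneg_left (by linarith) (by positivity)
      have h2 : 0 < h * ‖deriv χ 0‖ := by positivity
      nlinarith
    · intro w hw
      rw [mem_ball, dist_eq_norm]
      have h1 : (D m).xx (χ w) - x₀ = (χ w - χ 0) / (D m).sg := by
        have h2 : x₀ = (D m).xx (χ 0) := by rw [hval, hxz]
        conv_lhs => rw [h2]
        unfold Dat.xx
        rw [← sub_div]
        congr 1
        ring
      rw [h1, norm_div, div_lt_iff₀ (norm_pos_iff.2 hsg0)]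
      refine lt_of_le_of_lt (hχw w hw) ?_
      have h3 : 11 / 10 * ‖deriv χ 0‖ * (2 * r) ≤ 11 / 10 * (C₁ * ‖(D m).sg‖) * (2 * r) := by
        gcongr
      have h4 : 0 < ‖(D m).sg‖ := norm_pos_iff.2 hsg0
      have h5 : 4 * r * C₁ * ‖(D m).sg‖ ≤ ρ * ‖(D m).sg‖ := by gcongr
      have h6 : 0 < r * C₁ * ‖(D m).sg‖ := by positivity
      nlinarith
  obtain ⟨Φ, hΦ⟩ := hcts n C (Am m) (D m) hG x₀ ρ χ Ψ hρ hSt (by
      rw [div_le_iff₀ hC₁0] at hsg1
      linarith) hdΨ (fun x hx => hΨ2 x (hsub hx)) (by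
      rw [lt_div_iff₀ (by positivity)] at hom2
      linarith) (htau (D m).B Ψ x₀ (D m).om hom0.le (by linarith) (fun x hx => hBm x (by
        rw [mem_ball] at hx
        rw [mem_closedBall]
        linarith)) hΨd hΨ2)
  exact ⟨χ, tw (D m) Ψ χ, Φ, hΦ⟩

end WPT
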